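import Pool.Agent.H756QS.Meas

/-!
# Measures of weak non-compactness in Lipschitz-free spaces over uniformly separated spaces

For every uniformly separated metric space `M` (bounded or not) De Blasi's measure `ω` and the
measure `wk` are equivalent in the Lipschitz-free space `F(M)`, with the universal constant
`3200`: `ω(A) ≤ 3200 wk(A)` for every bounded `A ⊆ F(M)`.

Idea of the proof. If `A` is not covered by finitely many balls of radius `r` then it contains a
sequence `(x_n)` with `‖x_n - x_m‖ ≥ r`. If `r > 3200 wk(A)`, take a weak* limit of `(x_n)` along an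
ultrafilter and `z ∈ F(M)` close to it. Then `v_n = x_n - z` is almost weakly null and has norm at
least `r / 2`; a gliding hump argument with suprema of cones of slope `40` yields a bounded
sequence of Lipschitz functions `D_j`, converging pointwise to `0`, and a subsequence on which
`D_j(v_{m_k}) ≥ r / 40` for all `k ≥ j`. A weak* cluster point of `(x_{m_k})` is then at distance
at least `r / 3200` from `F(M)`.
-/

set_option autoImplicit false

namespace Pool.Agent.Results.MP_6e86bf_an.EquivalentMeasures

open Pool.Agent.H756QS Pool.Agent.H266R3.LF

theorem result (M : Type) [MetricSpace M] (o : M)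
    (hM : ∃ ε : ℝ, 0 < ε ∧ ∀ x y : M, x ≠ y → ε ≤ dist x y)
    (A : Set (FreeSp M o)) (hA : Bornology.IsBounded A) :
    omega A ≤ 3200 * wk A := by
  obtain ⟨ε, hε, hsep⟩ := hM
  rcases A.eq_empty_or_nonempty with rfl | hne
  · have h0 : 0 ≤ wk (∅ : Set (FreeSp M o)) := Real.iSup_nonneg fun _ => Metric.infDist_nonneg
    have h1 : omega (∅ : Set (FreeSp M o)) = 0 := by
      unfold omega dhat
      simp
    rw [h1]
    positivity
  · exact omega_le o ε hε hsep A hne hA

end Pool.Agent.Results.MP_6e86bf_an.EquivalentMeasures
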